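import Mathlib

/-!
# The exceptional set in the abc conjecture: definitions

For `n ≥ 1` and a set `S` of classes (the class of a prime `p` dividing `n` is `min (v_p n) 5`):
`part S n` is the product of the `p ^ v_p(n)` over the primes of class in `S`, and `rpart S n` is
the product of these primes.
-/

namespace Pool.Agent.H328R2.ABC

open Finset

/-- the radical: product of the distinct primes dividing `n` -/
def rad (n : ℕ) : ℕ := ∏ p ∈ n.primeFactors, p

/-- the part of `n` made of the primes `p` with `min (v_p n) 5 ∈ S` -/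
def part (S : Finset ℕ) (n : ℕ) : ℕ :=
  ∏ p ∈ n.primeFactors.filter (fun p => min (n.factorization p) 5 ∈ S), p ^ n.factorization p

/-- the radical of `part S n` -/
def rpart (S : Finset ℕ) (n : ℕ) : ℕ :=
  ∏ p ∈ n.primeFactors.filter (fun p => min (n.factorization p) 5 ∈ S), p

/-- all classes -/
def All : Finset ℕ := {1, 2, 3, 4, 5}

/-- the three terms of `a + b = c` -/
def side (a b : ℕ) (r : Fin 3) : ℕ := ![a, b, a + b] r

/-- `(a,b)` with `0 < a ≤ b`, coprime, `a + b ≤ X` -/
def Adm (X : ℕ) (t : ℕ × ℕ) : Prop :=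
  0 < t.1 ∧ t.1 ≤ t.2 ∧ Nat.Coprime t.1 t.2 ∧ t.1 + t.2 ≤ X

/-- a set `S` of classes whose part is a perfect `d`-th power (`S` arbitrary if `d = 1`) -/
def ok (S : Finset ℕ) (d : ℕ) : Prop := S ⊆ All ∧ (d = 1 ∨ ∀ i ∈ S, i ≠ 5 ∧ d ∣ i)

/-- the factor gained when the smallest term carries the modulus -/
noncomputable def kap (a b : ℕ) (r : Fin 3) : ℝ :=
  if r = 0 then (a : ℝ) / ((a + b : ℕ) : ℝ) else 1

/-- the number of possible `(V, W, M)` of the lattice bound -/
def PL (J K I : Finset ℕ) (a b : ℕ) (r : Fin 3) : ℕ :=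
  rpart (All \ J) (side a b (r + 1)) * rpart (All \ K) (side a b (r + 2)) * rpart I (side a b r)

/-- the condition under which the lattice bound `(r, d, J, K, I)` counts `(a,b)` -/
def condL (r : Fin 3) (d : ℕ) (J K I : Finset ℕ) (Q : ℝ) (a b : ℕ) : Prop :=
  (PL J K I a b r : ℝ) ≤ Q ∧
  (PL J K I a b r : ℝ) *
    ((part J (side a b (r + 1)) * part K (side a b (r + 2)) : ℕ) : ℝ) ^ ((1 : ℝ) / d) * kap a b r
    ≤ Q * (part I (side a b r) : ℝ)

/-- the condition of the trivial bound -/
def condT (r : Fin 3) (Q : ℝ) (a b : ℕ) : Prop :=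
  ((rad (side a b (r + 1)) * rad (side a b (r + 2)) : ℕ) : ℝ) ≤ Q

/-- the condition of the determinant bound: on side `r` the part of exponent 3, on side `q` the
part of exponent 4, the third side is `k` -/
def condD (r q k : Fin 3) (Q : ℝ) (a b : ℕ) : Prop :=
  ((rpart (All \ {3}) (side a b r) * rpart (All \ {4}) (side a b q) * rad (side a b k) : ℕ) : ℝ)
    * (rpart {4} (side a b q) : ℝ) ^ ((1 : ℝ) / 3) ≤ Q

end Pool.Agent.H328R2.ABC
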