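import Mathlib

/-! From counts ordered by height to counts ordered by the counting function. -/

set_option autoImplicit false

namespace Pool.Agent.Q38.AE.Cov

open Finset Filter Topology

variable {Ω : Type*} (P : Ω → Prop) (h N : Ω → ℝ)

/-- height at most `log B`, counting function at most `h / s + 1` -/
def A (s B : ℝ) : Set Ω := {x | P x ∧ Real.exp (h x) ≤ B ∧ N x < 1 / s * h x + 1}

/-- counting function at most `log X`, height between `M N` and `L log X` -/
def E (M L X : ℝ) : Set Ω :=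
  {x | P x ∧ Real.exp (N x) ≤ X ∧ M * N x ≤ h x ∧ h x ≤ L * Real.log X}

/-- counting function at most `log X`, height between `M N` and `L N` -/
def F (M L X : ℝ) : Set Ω :=
  {x | P x ∧ Real.exp (N x) ≤ X ∧ M * N x ≤ h x ∧ h x < L * N x}

variable {P h N}

theorem F_sub {M L X : ℝ} (hL : 0 ≤ L) (hX : 0 < X) : F P h N M L X ⊆ E P h N M L X := by
  rintro x ⟨h1, h2, h3, h4⟩
  refine ⟨h1, h2, h3, h4.le.trans (mul_le_mul_of_nonneg_left ?_ hL)⟩
  exact (Real.le_log_iff_exp_le hX).2 h2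

theorem cover {M L D G ε : ℝ} (hM : 0 < M) (hML : M ≤ L) (hG : 0 ≤ G)
    (hA : ∀ s : ℝ, M ≤ s → s ≤ L → ∃ g : ℝ, 0 ≤ g ∧ g ≤ G ∧ s * g ≤ D ∧ ∀ δ : ℝ, 0 < δ →
      ∃ C : ℝ, ∀ B : ℝ, 1 ≤ B → (A P h N s B).Finite ∧
        ((A P h N s B).ncard : ℝ) ≤ C * B ^ (g + δ)) (hε : 0 < ε) :
    ∃ C : ℝ, 0 < C ∧ ∀ X : ℝ, 1 ≤ X → (E P h N M L X).Finite ∧
      ((E P h N M L X).ncard : ℝ) ≤ C * X ^ (D + ε) := by
  obtain ⟨η, hη⟩ : ∃ η : ℝ, η = min 1 (ε / (2 * (G + 1))) := ⟨_, rfl⟩
  obtain ⟨ε', hε'⟩ : ∃ ε' : ℝ, ε' = ε / (2 * (L + 1)) := ⟨_, rfl⟩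
  have hη0 : 0 < η := by rw [hη]; exact lt_min one_pos (by positivity)
  have hη1 : η ≤ 1 := by rw [hη]; exact min_le_left _ _
  have hη2 : η * G ≤ ε / 2 := by
    have h1 : η ≤ ε / (2 * (G + 1)) := by rw [hη]; exact min_le_right _ _
    calc η * G ≤ ε / (2 * (G + 1)) * (G + 1) :=
          mul_le_mul h1 (by linarith) hG (by positivity)
      _ = ε / 2 := by field_simp
  have hL0 : 0 < L := by linarith
  have hε'0 : 0 < ε' := by rw [hε']; positivity
  have hε'2 : (L + 1) * ε' = ε / 2 := by rw [hε']; field_simp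
  -- the count for one slice
  have hslice : ∀ s : ℝ, M ≤ s → s ≤ L → ∃ C : ℝ, 0 ≤ C ∧ ∀ X : ℝ, 1 ≤ X →
      (A P h N s (X ^ (s + η))).Finite ∧
        ((A P h N s (X ^ (s + η))).ncard : ℝ) ≤ C * X ^ (D + ε) := by
    intro s h1 h2
    obtain ⟨g, hg0, hgG, hsg, hcount⟩ := hA s h1 h2
    obtain ⟨C, hC⟩ := hcount ε' hε'0
    refine ⟨|C|, abs_nonneg C, fun X hX => ?_⟩
    have hX0 : 0 < X := by linarith
    have hs : 0 ≤ s + η := by linarith
    obtain ⟨hf, hc⟩ := hC (X ^ (s + η)) (Real.one_le_rpow hX hs)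
    refine ⟨hf, hc.trans ?_⟩
    calc C * (X ^ (s + η)) ^ (g + ε') ≤ |C| * (X ^ (s + η)) ^ (g + ε') :=
          mul_le_mul_of_nonneg_right (le_abs_self C) (by positivity)
      _ = |C| * X ^ ((s + η) * (g + ε')) := by rw [← Real.rpow_mul hX0.le]
      _ ≤ |C| * X ^ (D + ε) := by
          refine mul_le_mul_of_nonneg_left (Real.rpow_le_rpow_of_exponent_le hX ?_)
            (abs_nonneg C)
          have h5 : (s + η) * ε' ≤ (L + 1) * ε' :=
            mul_le_mul_of_nonneg_right (by linarith) hε'0.le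
          have h6 : η * g ≤ η * G := mul_le_mul_of_nonneg_left hgG hη0.le
          calc (s + η) * (g + ε') = s * g + η * g + (s + η) * ε' := by ring
            _ ≤ D + ε := by linarith
  -- induction
  have hind : ∀ j : ℕ, M + ((j : ℝ) - 1) * η ≤ L → ∃ C : ℝ, 0 ≤ C ∧ ∀ X : ℝ, 1 ≤ X →
      (E P h N M (M + j * η) X).Finite ∧
      ((E P h N M (M + j * η) X).ncard : ℝ) ≤ C * X ^ (D + ε) := by
    intro j
    induction j with
    | zero =>
      intro _
      obtain ⟨C, hC0, hC⟩ := hslice M le_rfl hML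
      refine ⟨C, hC0, fun X hX => ?_⟩
      have hX0 : 0 < X := by linarith
      obtain ⟨hf, hc⟩ := hC X hX
      have hsub : E P h N M (M + (0 : ℕ) * η) X ⊆ A P h N M (X ^ (M + η)) := by
        rintro x ⟨h1, h2, h3, h4⟩
        rw [Nat.cast_zero, zero_mul, add_zero] at h4
        refine ⟨h1, ?_, ?_⟩
        · have h5 : h x ≤ (M + η) * Real.log X :=
            h4.trans (mul_le_mul_of_nonneg_right (by linarith) (Real.log_nonneg hX))
          rw [Real.rpow_def_of_pos hX0, mul_comm (Real.log X)]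
          exact Real.exp_le_exp.2 h5
        · have h5 : N x ≤ 1 / M * h x := by
            rw [one_div, ← div_eq_inv_mul, le_div_iff₀ hM]
            linarith
          linarith
      exact ⟨hf.subset hsub, le_trans (by exact_mod_cast Set.ncard_le_ncard hsub hf) hc⟩
    | succ j ih =>
      intro hj
      have hj' : M + (j : ℝ) * η ≤ L := by
        push_cast at hj
        linarith
      obtain ⟨C, hC0, hC⟩ := ih (by nlinarith)
      have hs : 0 < M + (j : ℝ) * η := by positivity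
      obtain ⟨C', hC'0, hC'⟩ := hslice (M + (j : ℝ) * η)
        (by nlinarith [mul_nonneg (Nat.cast_nonneg j : (0 : ℝ) ≤ j) hη0.le]) hj'
      refine ⟨C + C', by positivity, fun X hX => ?_⟩
      have hX0 : 0 < X := by linarith
      obtain ⟨f1, c1⟩ := hC X hX
      obtain ⟨f2, c2⟩ := hC' X hX
      have hsub : E P h N M (M + ((j + 1 : ℕ) : ℝ) * η) X ⊆
          E P h N M (M + j * η) X ∪ A P h N (M + j * η) (X ^ (M + j * η + η)) := by
        rintro x ⟨h1, h2, h3, h4⟩
        by_cases hc : h x ≤ (M + (j : ℝ) * η) * Real.log X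
        · exact Or.inl ⟨h1, h2, h3, hc⟩
        · push Not at hc
          refine Or.inr ⟨h1, ?_, ?_⟩
          · rw [Real.rpow_def_of_pos hX0, mul_comm (Real.log X)]
            refine Real.exp_le_exp.2 (h4.trans (le_of_eq ?_))
            push_cast
            ring
          · have h5 : N x ≤ Real.log X := (Real.le_log_iff_exp_le hX0).2 h2
            have h6 : Real.log X ≤ 1 / (M + (j : ℝ) * η) * h x := by
              rw [one_div, ← div_eq_inv_mul, le_div_iff₀ hs]
              linarith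
            linarith
      refine ⟨(f1.union f2).subset hsub, ?_⟩
      have h1 := Set.ncard_le_ncard hsub (f1.union f2)
      have h2 := Set.ncard_union_le (E P h N M (M + j * η) X)
        (A P h N (M + j * η) (X ^ (M + j * η + η)))
      have h3 : ((E P h N M (M + ((j + 1 : ℕ) : ℝ) * η) X).ncard : ℝ) ≤
          ((E P h N M (M + j * η) X).ncard : ℝ) +
            ((A P h N (M + j * η) (X ^ (M + j * η + η))).ncard : ℝ) := by
        exact_mod_cast h1.trans h2
      linarith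
  obtain ⟨j, hj1, hj2⟩ : ∃ j : ℕ, M + ((j : ℝ) - 1) * η ≤ L ∧ L ≤ M + j * η := by
    refine ⟨⌈(L - M) / η⌉₊, ?_, ?_⟩
    · have h1 := Nat.ceil_lt_add_one (show 0 ≤ (L - M) / η from div_nonneg (by linarith) hη0.le)
      have h2 : ((⌈(L - M) / η⌉₊ : ℝ) - 1) * η ≤ (L - M) / η * η :=
        mul_le_mul_of_nonneg_right (by linarith) hη0.le
      rw [div_mul_cancel₀ _ hη0.ne'] at h2
      linarith
    · have h1 := Nat.le_ceil ((L - M) / η)
      have h2 := mul_le_mul_of_nonneg_right h1 hη0.le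
      rw [div_mul_cancel₀ _ hη0.ne'] at h2
      linarith
  obtain ⟨C, hC0, hC⟩ := hind j hj1
  refine ⟨C + 1, by positivity, fun X hX => ?_⟩
  have hX0 : 0 < X := by linarith
  obtain ⟨hf, hc⟩ := hC X hX
  have hsub : E P h N M L X ⊆ E P h N M (M + j * η) X := by
    rintro x ⟨h1, h2, h3, h4⟩
    exact ⟨h1, h2, h3, h4.trans (mul_le_mul_of_nonneg_right hj2 (Real.log_nonneg hX))⟩
  refine ⟨hf.subset hsub, ?_⟩
  have h1 : ((E P h N M L X).ncard : ℝ) ≤ ((E P h N M (M + j * η) X).ncard : ℝ) := by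
    exact_mod_cast Set.ncard_le_ncard hsub hf
  have h2 : (0 : ℝ) ≤ X ^ (D + ε) := by positivity
  nlinarith

/-- the lower bound: `Z B` are points with `exp h ≤ B`, `N < h / M` -/
theorem lower {M L L' g g' ε : ℝ} (hM : 0 < M) (hML' : M < L') (hL'L : L' ≤ L)
    (hh : ∀ x, P x → 0 ≤ h x)
    (hZ : ∃ C : ℝ, 0 < C ∧ ∀ᶠ B : ℝ in atTop,
      C * B ^ g ≤ (({x | P x ∧ Real.exp (h x) ≤ B ∧ N x < 1 / M * h x} : Set Ω).ncard : ℝ))
    (hfinE : ∀ X : ℝ, 1 ≤ X → (E P h N M L X).Finite)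
    (hA : ∀ δ : ℝ, 0 < δ → ∃ C : ℝ, ∀ B : ℝ, 1 ≤ B → (A P h N L' B).Finite ∧
        ((A P h N L' B).ncard : ℝ) ≤ C * B ^ (g' + δ)) (hgg : g' < g) (hε : 0 < ε) :
    ∃ X₀ : ℝ, ∀ X : ℝ, X₀ ≤ X → X ^ (M * g - ε) ≤ ((F P h N M L X).ncard : ℝ) := by
  obtain ⟨C, hC, hlow⟩ := hZ
  obtain ⟨δ, hδ⟩ : ∃ δ : ℝ, δ = (g - g') / 2 := ⟨_, rfl⟩
  have hδ0 : 0 < δ := by rw [hδ]; linarith
  obtain ⟨C', hC'⟩ := hA δ hδ0
  have tM : Tendsto (fun X : ℝ => X ^ M) atTop atTop := tendsto_rpow_atTop hM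
  have t1 : Tendsto (fun X : ℝ => X ^ (M * δ)) atTop atTop :=
    tendsto_rpow_atTop (by positivity)
  have t2 : Tendsto (fun X : ℝ => X ^ ε) atTop atTop := tendsto_rpow_atTop hε
  have key : ∀ᶠ X : ℝ in atTop, X ^ (M * g - ε) ≤ ((F P h N M L X).ncard : ℝ) := by
    filter_upwards [tM.eventually hlow, t1.eventually (eventually_ge_atTop (2 * |C'| / C)),
      t2.eventually (eventually_ge_atTop (2 / C)), eventually_ge_atTop 1] with X h1 h2 h3 hX
    have hX0 : 0 < X := by linarith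
    have hXM : (1 : ℝ) ≤ X ^ M := Real.one_le_rpow hX hM.le
    obtain ⟨f2, c2⟩ := hC' (X ^ M) hXM
    have hfinF : (F P h N M L X).Finite :=
      (hfinE X hX).subset (F_sub (by linarith) hX0)
    have hsub : {x | P x ∧ Real.exp (h x) ≤ X ^ M ∧ N x < 1 / M * h x} ⊆
        F P h N M L X ∪ A P h N L' (X ^ M) := by
      rintro x ⟨k1, k2, k3⟩
      have k4 : h x ≤ M * Real.log X := by
        rw [Real.rpow_def_of_pos hX0, mul_comm (Real.log X)] at k2
        exact Real.exp_le_exp.1 k2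
      have k5 : N x * M < h x := by
        rw [one_div, ← div_eq_inv_mul, lt_div_iff₀ hM] at k3
        exact k3
      by_cases hc : h x < L * N x
      · refine Or.inl ⟨k1, ?_, by linarith, hc⟩
        rw [← Real.le_log_iff_exp_le hX0]
        have : N x * M ≤ Real.log X * M := by linarith
        exact le_of_mul_le_mul_right this hM
      · push Not at hc
        refine Or.inr ⟨k1, k2, ?_⟩
        have k6 := hh x k1
        have hL' : 0 < L' := by linarith
        have k7 : N x ≤ 1 / L' * h x := by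
          rw [one_div, ← div_eq_inv_mul, le_div_iff₀ hL']
          rcases le_or_gt 0 (N x) with h0 | h0
          · nlinarith
          · nlinarith
        linarith
    have h8 := Set.ncard_le_ncard hsub (hfinF.union f2)
    have h9 : (({x | P x ∧ Real.exp (h x) ≤ X ^ M ∧ N x < 1 / M * h x} : Set Ω).ncard : ℝ) ≤
        ((F P h N M L X).ncard : ℝ) + ((A P h N L' (X ^ M)).ncard : ℝ) := by
      exact_mod_cast h8.trans (Set.ncard_union_le _ _)
    have e1 : (X ^ M) ^ g = X ^ (M * g) := by rw [← Real.rpow_mul hX0.le]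
    have e2 : (X ^ M) ^ (g' + δ) = X ^ (M * g) / X ^ (M * δ) := by
      rw [← Real.rpow_mul hX0.le, ← Real.rpow_sub hX0]
      congr 1
      rw [hδ]
      ring
    rw [e1] at h1
    rw [e2] at c2
    have hp : 0 < X ^ (M * g) := by positivity
    have hq : 0 < X ^ (M * δ) := by positivity
    have h10 : C' * (X ^ (M * g) / X ^ (M * δ)) ≤ C / 2 * X ^ (M * g) := by
      have h11 : 2 * |C'| ≤ C * X ^ (M * δ) := by
        rw [div_le_iff₀ hC] at h2
        linarith
      calc C' * (X ^ (M * g) / X ^ (M * δ)) ≤ |C'| * (X ^ (M * g) / X ^ (M * δ)) :=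
            mul_le_mul_of_nonneg_right (le_abs_self C') (by positivity)
        _ ≤ (C / 2 * X ^ (M * δ)) * (X ^ (M * g) / X ^ (M * δ)) :=
            mul_le_mul_of_nonneg_right (by linarith) (by positivity)
        _ = C / 2 * X ^ (M * g) := by field_simp
    have h12 : C / 2 * X ^ (M * g) ≤ ((F P h N M L X).ncard : ℝ) := by linarith
    refine le_trans ?_ h12
    have h13 : X ^ (M * g - ε) = X ^ (M * g) / X ^ ε := Real.rpow_sub hX0 _ _
    rw [h13, div_le_iff₀ (by positivity)]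
    have h14 : 2 ≤ X ^ ε * C := by
      rw [div_le_iff₀ hC] at h3
      exact h3
    nlinarith
  obtain ⟨X₀, hX₀⟩ := eventually_atTop.1 key
  exact ⟨X₀, hX₀⟩

/-- an exponent from upper and lower bounds -/
theorem tendsto_exponent {f : ℝ → ℝ} {L : ℝ}
    (h1 : ∀ ε : ℝ, 0 < ε → ∃ C : ℝ, 0 < C ∧ ∀ X : ℝ, 1 ≤ X → f X ≤ C * X ^ (L + ε))
    (h2 : ∀ ε : ℝ, 0 < ε → ∃ X₀ : ℝ, ∀ X : ℝ, X₀ ≤ X → X ^ (L - ε) ≤ f X) :
    Tendsto (fun X : ℝ => Real.log (f X) / Real.log X) atTop (𝓝 L) := by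
  rw [Metric.tendsto_atTop]
  intro ε hε
  obtain ⟨C, hC, hup⟩ := h1 (ε / 3) (by positivity)
  obtain ⟨X₀, hlo⟩ := h2 (ε / 3) (by positivity)
  have ht : Tendsto (fun X : ℝ => ε / 3 * Real.log X) atTop atTop :=
    Real.tendsto_log_atTop.const_mul_atTop (by positivity)
  obtain ⟨X₁, hX₁⟩ := eventually_atTop.1 (ht.eventually (eventually_ge_atTop (Real.log C)))
  refine ⟨max (max X₀ X₁) 2, fun X hX => ?_⟩
  have hX0 : X₀ ≤ X := (le_max_left _ _).trans ((le_max_left _ _).trans hX)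
  have hX1 : X₁ ≤ X := (le_max_right _ _).trans ((le_max_left _ _).trans hX)
  have hX2 : 2 ≤ X := (le_max_right _ _).trans hX
  have hXp : 0 < X := by linarith
  have hl : 0 < Real.log X := Real.log_pos (by linarith)
  have hf0 : 0 < f X := lt_of_lt_of_le (by positivity) (hlo X hX0)
  have e1 : Real.log (f X) ≤ Real.log C + (L + ε / 3) * Real.log X := by
    rw [← Real.log_rpow hXp, ← Real.log_mul hC.ne' (by positivity)]
    exact Real.log_le_log hf0 (hup X (by linarith))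
  have e2 : (L - ε / 3) * Real.log X ≤ Real.log (f X) := by
    rw [← Real.log_rpow hXp]
    exact Real.log_le_log (by positivity) (hlo X hX0)
  have e3 := hX₁ X hX1
  rw [Real.dist_eq, abs_lt]
  have hεl : 0 < ε * Real.log X := by positivity
  constructor
  · rw [neg_lt_sub_iff_lt_add, ← sub_lt_iff_lt_add', lt_div_iff₀ hl]
    linarith
  · rw [sub_lt_iff_lt_add', div_lt_iff₀ hl]
    linarith

end Pool.Agent.Q38.AE.Cov
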