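import Pool.Agent.H42.EX.Lib.Tup

/-! Many pairwise coprime tuples with sum zero and small radical. -/

set_option autoImplicit false

namespace Pool.Agent.Q38.NC

open Finset Filter Topology
open Pool.Agent.H328R2.ABC (rad sum_inv_rad)

theorem card_pf (S : ℕ) (hS : S ≠ 0) : S.primeFactors.card ≤ Nat.log 2 S := by
  refine Nat.le_log_of_pow_le (by norm_num) ?_
  have h1 : ∏ _p ∈ S.primeFactors, 2 ≤ ∏ p ∈ S.primeFactors, p :=
    Finset.prod_le_prod' fun p hp => (Nat.prime_of_mem_primeFactors hp).two_le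
  rw [prod_const] at h1
  exact h1.trans (Nat.le_of_dvd (Nat.pos_of_ne_zero hS) (Nat.prod_primeFactors_dvd S))

variable {m : ℕ}

/-- the number of tuples of the construction -/
theorem count_tup {q k a Y : ℕ} (hm : 1 ≤ m) (hq : q.Prime) (P U : Finset ℕ)
    (hP : ∀ p ∈ P, p.Prime ∧ p % q = a ∧ q < p ∧ p ≤ Y ∧ ∀ u ∈ U, u < p)
    (hU : ∀ u ∈ U, u.Prime ∧ u ≠ q) (ha : ¬ q ∣ m * a) :
    ∃ G : Finset (Fin (m + 1 + 1) → ℤ), (∀ x ∈ G, ∃ u ∈ U, ∃ p : Fin m → ℕ, (∀ j, p j ∈ P) ∧
      Dat q k u p ∧ x = tup (q ^ k) u p) ∧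
      (P.card + 1 - m) ^ m * (U.card - (Nat.log 2 (m * Y) + m)) ≤ G.card := by
  classical
  obtain ⟨gd, hgd⟩ : ∃ gd : (Fin m ↪ P) → Finset ℕ,
      ∀ f, gd f = U.filter fun u => Dat q k u fun j => (f j : ℕ) := ⟨_, fun _ => rfl⟩
  have hK : 0 < q ^ k := pow_pos hq.pos k
  -- the bad values of `u`
  have hbad : ∀ f : Fin m ↪ P, U.card - (Nat.log 2 (m * Y) + m) ≤ (gd f).card := by
    intro f
    obtain ⟨p, hp⟩ : ∃ p : Fin m → ℕ, p = fun j => (f j : ℕ) := ⟨_, rfl⟩
    have hpP : ∀ j, p j ∈ P := fun j => by rw [hp]; exact (f j).2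
    have hinj : Function.Injective p := by
      rw [hp]
      exact Subtype.val_injective.comp f.injective
    obtain ⟨S, hS⟩ : ∃ S, S = ∑ j, p j := ⟨_, rfl⟩
    have hSpos : 0 < S := by
      rw [hS]
      refine lt_of_lt_of_le (hP _ (hpP ⟨0, hm⟩)).1.pos
        (single_le_sum (f := p) (fun _ _ => Nat.zero_le _) (mem_univ _))
    have hSle : S ≤ m * Y := by
      rw [hS]
      calc ∑ j, p j ≤ ∑ _j : Fin m, Y := sum_le_sum fun j _ => (hP _ (hpP j)).2.2.2.1
        _ = m * Y := by rw [sum_const, card_univ, Fintype.card_fin, smul_eq_mul]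
    have hqS : ¬ q ∣ S := by
      intro h
      apply ha
      rw [Nat.dvd_iff_mod_eq_zero] at h ⊢
      rw [hS, Finset.sum_nat_mod, sum_congr rfl fun j _ => (hP _ (hpP j)).2.1, sum_const,
        card_univ, Fintype.card_fin, smul_eq_mul] at h
      exact h
    have h1 : U.filter (fun u => ¬ Dat q k u p) ⊆ S.primeFactors ∪
        univ.biUnion fun j : Fin m => U.filter fun u => p j ∣ q ^ k * u + S := by
      intro u hu
      rw [mem_filter] at hu
      obtain ⟨hu1, hu2⟩ := hu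
      rw [mem_union, mem_biUnion]
      by_contra hcon
      push Not at hcon
      obtain ⟨c1, c2⟩ := hcon
      apply hu2
      obtain ⟨u1, u2⟩ := hU u hu1
      refine ⟨hq, u1, fun j => (hP _ (hpP j)).1, hinj, fun j => (hP _ (hpP j)).2.2.1.ne',
        fun j => ((hP _ (hpP j)).2.2.2.2 u hu1).ne', u2, ?_, ?_, ?_⟩
      · intro h
        exact c1 (Nat.mem_primeFactors.2 ⟨u1, by rw [hS]; exact h, hSpos.ne'⟩)
      · rw [← hS]
        exact hqS
      · intro j h
        refine c2 j (mem_univ _) (mem_filter.2 ⟨hu1, ?_⟩)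
        rw [hS]
        exact h
    have h2 : ∀ j : Fin m, (U.filter fun u => p j ∣ q ^ k * u + S).card ≤ 1 := by
      intro j
      rw [card_le_one]
      intro u hu v hv
      rw [mem_filter] at hu hv
      obtain ⟨p1, -, p3, -, p5⟩ := hP _ (hpP j)
      have d1 : ((p j : ℕ) : ℤ) ∣ (q : ℤ) ^ k * ((u : ℤ) - v) := by
        have e1 : ((p j : ℕ) : ℤ) ∣ ((q ^ k * u + S : ℕ) : ℤ) := by exact_mod_cast hu.2
        have e2 : ((p j : ℕ) : ℤ) ∣ ((q ^ k * v + S : ℕ) : ℤ) := by exact_mod_cast hv.2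
        have e3 := dvd_sub e1 e2
        push_cast at e3
        have e4 : (q : ℤ) ^ k * u + S - ((q : ℤ) ^ k * v + S) = (q : ℤ) ^ k * (u - v) := by ring
        rwa [e4] at e3
      have hpz : Prime ((p j : ℕ) : ℤ) := Nat.prime_iff_prime_int.1 p1
      rcases hpz.dvd_or_dvd d1 with h | h
      · exfalso
        have h3 : ((p j : ℕ) : ℤ) ∣ (q : ℤ) := hpz.dvd_of_dvd_pow h
        have h4 : p j ∣ q := by exact_mod_cast h3
        have h5 := Nat.le_of_dvd hq.pos h4
        omega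
      · have h3 := p5 u hu.1
        have h4 := p5 v hv.1
        have h5 : (u : ℤ) - v = 0 := by
          refine Int.eq_zero_of_abs_lt_dvd h ?_
          rw [abs_lt]
          constructor <;> omega
        omega
    have h3 : (U.filter (fun u => ¬ Dat q k u p)).card ≤ Nat.log 2 (m * Y) + m := by
      refine (card_le_card h1).trans ((card_union_le _ _).trans ?_)
      refine add_le_add ((card_pf S hSpos.ne').trans (Nat.log_mono_right hSle)) ?_
      refine card_biUnion_le.trans ?_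
      calc ∑ j : Fin m, (U.filter fun u => p j ∣ q ^ k * u + S).card ≤ ∑ _j : Fin m, 1 :=
            sum_le_sum fun j _ => h2 j
        _ = m := by simp
    have h4 := Finset.card_filter_add_card_filter_not (s := U) (fun u => Dat q k u p)
    rw [hgd f, ← hp]
    omega
  refine ⟨(univ.sigma gd).image fun t => tup (q ^ k) t.2 fun j => (t.1 j : ℕ), ?_, ?_⟩
  · intro x hx
    obtain ⟨⟨f, u⟩, ht, rfl⟩ := mem_image.1 hx
    rw [mem_sigma, hgd, mem_filter] at ht
    exact ⟨u, ht.2.1, fun j => (f j : ℕ), fun j => (f j).2, ht.2.2, rfl⟩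
  · rw [card_image_of_injective, card_sigma]
    · have h5 : ∑ _f : (Fin m ↪ P), (U.card - (Nat.log 2 (m * Y) + m)) ≤
          ∑ f : (Fin m ↪ P), (gd f).card := sum_le_sum fun f _ => hbad f
      rw [sum_const, card_univ, Fintype.card_embedding_eq, Fintype.card_fin, Fintype.card_coe,
        smul_eq_mul] at h5
      exact (Nat.mul_le_mul_right _ (Nat.pow_sub_le_descFactorial _ _)).trans h5
    · rintro ⟨f, u⟩ ⟨f', u'⟩ h
      simp only at h
      obtain ⟨h1, h2⟩ := tup_inj hK h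
      have h3 : f = f' := by
        ext j
        exact congrFun h2 j
      rw [h1, h3]

theorem pi_eq (N : ℕ) : Nat.primeCounting N = ((Icc 1 N).filter Nat.Prime).card := by
  unfold Nat.primeCounting Nat.primeCounting'
  rw [Nat.count_eq_card_filter_range]
  congr 1
  ext p
  rw [mem_filter, mem_filter, mem_range, mem_Icc]
  constructor
  · rintro ⟨h1, h2⟩
    exact ⟨⟨h2.one_le, by omega⟩, h2⟩
  · rintro ⟨⟨h1, h2⟩, h3⟩
    exact ⟨by omega, h3⟩

/-- many primes -/
theorem many_primes (η : ℝ) (hη : 0 < η) : ∀ᶠ x : ℝ in atTop,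
    x ^ (1 - η) ≤ (((Icc 1 ⌊x⌋₊).filter Nat.Prime).card : ℝ) := by
  have t1 : Tendsto (fun x : ℝ => x ^ (-(η / 2))) atTop (𝓝 0) :=
    tendsto_rpow_neg_atTop (by positivity)
  have e1 : ∀ᶠ x : ℝ in atTop, x ^ (-(η / 2)) ≤ η / 16 :=
    (t1.eventually (ge_mem_nhds (show (0 : ℝ) < η / 16 by positivity)))
  filter_upwards [e1, eventually_ge_atTop 1000] with x h1 h2
  have hx0 : 0 < x := by linarith
  obtain ⟨N, hN⟩ : ∃ N, N = ⌊x⌋₊ := ⟨_, rfl⟩
  have hN1 : (N : ℝ) ≤ x := by rw [hN]; exact Nat.floor_le hx0.le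
  have hN2 : x < N + 1 := by rw [hN]; exact Nat.lt_floor_add_one x
  have hN0 : (999 : ℝ) < N := by linarith
  rw [← hN]
  have k1 := Chebyshev.psi_ge N
  have k2 := Chebyshev.psi_le_primeCounting_mul_log N
  rw [pi_eq] at k2
  have k3 : Real.log N ≤ x ^ (η / 2) / (η / 2) :=
    (Real.log_le_log (by linarith) hN1).trans (Real.log_le_rpow_div hx0.le (by positivity))
  have k4 : Real.log ((N : ℝ) + 1) ≤ ((N : ℝ) + 1) ^ (1 / 2 : ℝ) / (1 / 2) :=
    Real.log_le_rpow_div (by linarith) (by norm_num)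
  rw [← Real.sqrt_eq_rpow] at k4
  have k5 : √((N : ℝ) + 1) ≤ N / 16 := by
    rw [Real.sqrt_le_left (by positivity)]
    nlinarith
  have k6 := Real.log_two_gt_d9
  have hlog : 0 < Real.log N := Real.log_pos (by linarith)
  have k7 : x / 4 ≤ (((Icc 1 N).filter Nat.Prime).card : ℝ) * (x ^ (η / 2) / (η / 2)) := by
    have h3 : (((Icc 1 N).filter Nat.Prime).card : ℝ) * Real.log N ≤
        (((Icc 1 N).filter Nat.Prime).card : ℝ) * (x ^ (η / 2) / (η / 2)) :=
      mul_le_mul_of_nonneg_left k3 (Nat.cast_nonneg _)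
    nlinarith
  have k8 : x ^ (1 - η) * (x ^ (η / 2) / (η / 2)) ≤ x / 4 := by
    have e2 : x ^ (1 - η) * x ^ (η / 2) = x * x ^ (-(η / 2)) := by
      rw [← Real.rpow_add hx0]
      nth_rewrite 2 [← Real.rpow_one x]
      rw [← Real.rpow_add hx0]
      congr 1
      ring
    calc x ^ (1 - η) * (x ^ (η / 2) / (η / 2)) = x * x ^ (-(η / 2)) / (η / 2) := by
          rw [← e2]
          ring
      _ ≤ x * (η / 16) / (η / 2) :=
          div_le_div_of_nonneg_right (mul_le_mul_of_nonneg_left h1 hx0.le) (by positivity)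
      _ ≤ x / 4 := by
          rw [div_le_iff₀ (by positivity)]
          nlinarith
  exact le_of_mul_le_mul_right (k8.trans k7) (by positivity)

end Pool.Agent.Q38.NC
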