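import Pool.Agent.H42.EX.Lib.Low

/-! Many pairwise coprime tuples with sum zero and small radical: the exponent. -/

set_option autoImplicit false

namespace Pool.Agent.Q38.NC

open Finset Filter Topology
open Pool.Agent.H328R2.ABC (rad sum_inv_rad)

/-- **The lower bound.** -/
theorem low {m : ℕ} (hm : 1 ≤ m) {κ ε : ℝ} (hκ0 : 0 < κ) (hκ1 : κ < 1) (hε : 0 < ε) :
    ∀ᶠ B : ℝ in atTop, ∃ G : Finset (Fin (m + 1 + 1) → ℤ), (∀ x ∈ G, Adm x ∧ NV x ∧
      (ht x : ℝ) ≤ B ∧ (RX x : ℝ) < (ht x : ℝ) ^ ((m : ℝ) + 2 - κ)) ∧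
      B ^ ((m : ℝ) + 1 - κ - ε) ≤ (G.card : ℝ) := by
  classical
  obtain ⟨n, hn⟩ : ∃ n : ℝ, n = (m : ℝ) + 2 := ⟨_, rfl⟩
  have hm0 : (1 : ℝ) ≤ m := by exact_mod_cast hm
  have hn3 : 3 ≤ n := by rw [hn]; linarith
  have hn0 : 0 < n := by linarith
  obtain ⟨η, hη⟩ : ∃ η : ℝ, η = min (ε / (4 * n)) ((1 - κ) / (2 * (2 * n + 3))) := ⟨_, rfl⟩
  have hη0 : 0 < η := by
    rw [hη]
    exact lt_min (by positivity) (div_pos (by linarith) (by positivity))
  have hη1 : η * (4 * n) ≤ ε := by
    have h : η ≤ ε / (4 * n) := by rw [hη]; exact min_le_left _ _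
    rwa [le_div_iff₀ (by positivity)] at h
  have hη2 : η * (2 * (2 * n + 3)) ≤ 1 - κ := by
    have h : η ≤ (1 - κ) / (2 * (2 * n + 3)) := by rw [hη]; exact min_le_right _ _
    rwa [le_div_iff₀ (by positivity)] at h
  obtain ⟨τ, hτ⟩ : ∃ τ : ℝ, τ = (2 * n + 1) * η := ⟨_, rfl⟩
  have hτ0 : 0 < τ := by rw [hτ]; positivity
  obtain ⟨c, hc⟩ : ∃ c : ℝ, c = 1 - κ - τ - 2 * η := ⟨_, rfl⟩
  have hc0 : 0 < c := by
    rw [hc, hτ]
    nlinarith
  have hη3 : η ≤ 1 / 8 := by nlinarith
  -- the prime `q`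
  obtain ⟨q, hqn, hq⟩ := Nat.exists_infinite_primes (m + 3)
  have hq0 : (0 : ℝ) < q := by exact_mod_cast hq.pos
  have hq1 : (1 : ℝ) < q := by exact_mod_cast hq.one_lt
  obtain ⟨X₁, hX₁⟩ := eventually_atTop.1 (many_primes η hη0)
  have tη : Tendsto (fun B : ℝ => B ^ η) atTop atTop := tendsto_rpow_atTop hη0
  have tc : Tendsto (fun B : ℝ => B ^ (c + η)) atTop atTop := tendsto_rpow_atTop (by linarith)
  have t2 : Tendsto (fun B : ℝ => B ^ (1 - 2 * η)) atTop atTop :=
    tendsto_rpow_atTop (by linarith)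
  have tn : Tendsto (fun B : ℝ => B / n) atTop atTop := tendsto_id.atTop_div_const hn0
  have tl : ∀ᶠ B : ℝ in atTop, Real.log B ≤ B ^ c := by
    have h := (isLittleO_log_rpow_atTop hc0).bound one_pos
    filter_upwards [h, eventually_ge_atTop 1] with B hB hB1
    rw [one_mul, Real.norm_of_nonneg (Real.log_nonneg hB1),
      Real.norm_of_nonneg (Real.rpow_nonneg (by linarith) _)] at hB
    exact hB
  have tcc : Tendsto (fun B : ℝ => B ^ c) atTop atTop := tendsto_rpow_atTop hc0
  filter_upwards [tη.eventually (eventually_ge_atTop (8 * n * q + 1)),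
    tc.eventually (eventually_ge_atTop (n * q * (|X₁| + 1))),
    tn.eventually (eventually_ge_atTop X₁), t2.eventually (eventually_ge_atTop ((q : ℝ) + m + 4)),
    tl, tcc.eventually (eventually_ge_atTop ((m : ℝ) + 4)), eventually_ge_atTop 1] with B b1 b2 b3 b4 b5 b6 b7
  have hB0 : 0 < B := by linarith
  have hlogB : 0 ≤ Real.log B := Real.log_nonneg b7
  -- the power of `q`
  obtain ⟨k', hk1, hk2⟩ := exists_nat_pow_near (Real.one_le_rpow b7 (show 0 ≤ κ + τ by linarith)) hq1
  obtain ⟨k, hk⟩ : ∃ k, k = k' + 1 := ⟨_, rfl⟩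
  rw [← hk] at hk2
  have hK1 : (q : ℝ) ^ k ≤ q * B ^ (κ + τ) := by
    rw [hk, pow_succ, mul_comm]
    exact mul_le_mul_of_nonneg_left hk1 hq0.le
  have hK0 : (0 : ℝ) < (q : ℝ) ^ k := by positivity
  -- the sets of primes
  obtain ⟨V, hV⟩ : ∃ V : ℝ, V = B / (n * (q : ℝ) ^ k) := ⟨_, rfl⟩
  have hV0 : 0 < V := by rw [hV]; positivity
  have hVlow : B ^ (1 - κ - τ) / (n * q) ≤ V := by
    rw [hV, div_le_div_iff₀ (by positivity) (by positivity)]
    calc B ^ (1 - κ - τ) * (n * (q : ℝ) ^ k) ≤ B ^ (1 - κ - τ) * (n * (q * B ^ (κ + τ))) :=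
          mul_le_mul_of_nonneg_left (mul_le_mul_of_nonneg_left hK1 hn0.le) (by positivity)
      _ = B ^ (1 - κ - τ) * B ^ (κ + τ) * (n * q) := by ring
      _ = B * (n * q) := by
          rw [← Real.rpow_add hB0]
          have : 1 - κ - τ + (κ + τ) = 1 := by ring
          rw [this, Real.rpow_one]
  have hec : c + 2 * η = 1 - κ - τ := by rw [hc]; ring
  have hVX : X₁ ≤ V := by
    have h1 : B ^ (c + η) ≤ B ^ (1 - κ - τ) :=
      Real.rpow_le_rpow_of_exponent_le b7 (by linarith)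
    have h2 : |X₁| + 1 ≤ V := by
      refine le_trans ?_ hVlow
      rw [le_div_iff₀ (by positivity)]
      linarith
    linarith [le_abs_self X₁]
  have hVup : V ≤ B ^ (1 - 2 * η) := by
    rw [hV, div_le_iff₀ (by positivity)]
    have h1 : B ^ (κ + τ) ≤ n * (q : ℝ) ^ k := by
      have h2 : (q : ℝ) ^ k ≤ n * (q : ℝ) ^ k := le_mul_of_one_le_left hK0.le (by linarith)
      linarith
    calc B = B ^ (1 - (κ + τ)) * B ^ (κ + τ) := by
          rw [← Real.rpow_add hB0]
          have : 1 - (κ + τ) + (κ + τ) = 1 := by ring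
          rw [this, Real.rpow_one]
      _ ≤ B ^ (1 - 2 * η) * (n * (q : ℝ) ^ k) := by
          refine mul_le_mul (Real.rpow_le_rpow_of_exponent_le b7 ?_) h1 (by positivity)
            (by positivity)
          have : 2 * η ≤ τ := by rw [hτ]; nlinarith
          linarith
  have hU0 := hX₁ V hVX
  have hP0 := hX₁ (B / n) b3
  obtain ⟨U0, hU0def⟩ : ∃ s, s = (Icc 1 ⌊V⌋₊).filter Nat.Prime := ⟨_, rfl⟩
  obtain ⟨P0, hP0def⟩ : ∃ s, s = (Icc 1 ⌊B / n⌋₊).filter Nat.Prime := ⟨_, rfl⟩
  rw [← hU0def] at hU0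
  rw [← hP0def] at hP0
  obtain ⟨U, hU⟩ : ∃ s, s = U0.erase q := ⟨_, rfl⟩
  obtain ⟨P1, hP1⟩ : ∃ s : Finset ℕ, s = P0.filter fun p : ℕ => B ^ (1 - 2 * η) < (p : ℝ) := ⟨_, rfl⟩
  have hUcard : (U0.card : ℝ) ≤ U.card + 1 := by
    have h := Finset.pred_card_le_card_erase (s := U0) (a := q)
    rw [← hU] at h
    have h' : U0.card ≤ U.card + 1 := by omega
    exact_mod_cast h'
  have hP1card : (P0.card : ℝ) ≤ P1.card + (B ^ (1 - 2 * η) + 1) := by
    have h1 := Finset.card_filter_add_card_filter_not (s := P0)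
      (fun p : ℕ => B ^ (1 - 2 * η) < (p : ℝ))
    rw [← hP1] at h1
    have h2 : (P0.filter fun p : ℕ => ¬ B ^ (1 - 2 * η) < (p : ℝ)).card ≤
        (range (⌊B ^ (1 - 2 * η)⌋₊ + 1)).card := by
      refine card_le_card fun p hp => ?_
      rw [mem_filter, not_lt] at hp
      rw [mem_range, Nat.lt_succ_iff]
      exact Nat.le_floor hp.2
    rw [card_range] at h2
    have h3 := Nat.floor_le (show 0 ≤ B ^ (1 - 2 * η) by positivity)
    have h4 : ((P0.filter fun p : ℕ => ¬ B ^ (1 - 2 * η) < (p : ℝ)).card : ℝ) ≤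
        (⌊B ^ (1 - 2 * η)⌋₊ : ℝ) + 1 := by exact_mod_cast h2
    have h5 : (P0.card : ℝ) = (P1.card : ℝ) +
        ((P0.filter fun p : ℕ => ¬ B ^ (1 - 2 * η) < (p : ℝ)).card : ℝ) := by
      exact_mod_cast h1.symm
    linarith
  -- the class
  obtain ⟨a, ha, hacard⟩ := Finset.exists_le_card_fiber_of_mul_le_card_of_maps_to
    (s := P1) (t := range q) (f := fun p => p % q) (n := P1.card / q)
    (fun p _ => mem_range.2 (Nat.mod_lt _ hq.pos)) ⟨0, mem_range.2 hq.pos⟩
    (by rw [card_range]; exact Nat.mul_div_le _ _)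
  obtain ⟨P, hP⟩ : ∃ s, s = P1.filter fun p => p % q = a := ⟨_, rfl⟩
  rw [← hP] at hacard
  have hPcard : (P1.card : ℝ) / q ≤ P.card + 1 := by
    rw [div_le_iff₀ hq0]
    have h1 := Nat.div_add_mod P1.card q
    have h2 := Nat.mod_lt P1.card hq.pos
    have h3 : P1.card ≤ (P.card + 1) * q := by
      calc P1.card = q * (P1.card / q) + P1.card % q := h1.symm
        _ ≤ q * P.card + q := by
            have := Nat.mul_le_mul_left q hacard
            omega
        _ = (P.card + 1) * q := by ring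
    exact_mod_cast h3
  -- the number of elements of `P`
  have hPlow : B ^ (1 - 2 * η) + m ≤ (P.card : ℝ) := by
    have h1 : B ^ (1 - η) / n ≤ (B / n) ^ (1 - η) := by
      rw [Real.div_rpow hB0.le hn0.le]
      refine div_le_div_of_nonneg_left (by positivity) (by positivity) ?_
      calc n ^ (1 - η) ≤ n ^ (1 : ℝ) :=
            Real.rpow_le_rpow_of_exponent_le (by linarith) (by linarith)
        _ = n := Real.rpow_one n
    have h2 : B ^ (1 - η) = B ^ (1 - 2 * η) * B ^ η := by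
      rw [← Real.rpow_add hB0]
      congr 1
      ring
    have h3 : 8 * q * B ^ (1 - 2 * η) ≤ B ^ (1 - η) / n := by
      rw [h2, le_div_iff₀ hn0]
      calc 8 * q * B ^ (1 - 2 * η) * n = B ^ (1 - 2 * η) * (8 * n * q) := by ring
        _ ≤ B ^ (1 - 2 * η) * B ^ η :=
            mul_le_mul_of_nonneg_left (by linarith) (by positivity)
    have h4 : 8 * q * B ^ (1 - 2 * η) ≤ P1.card + (B ^ (1 - 2 * η) + 1) := by linarith
    have h5 : (P1.card : ℝ) ≤ (P.card + 1) * q := by rwa [div_le_iff₀ hq0] at hPcard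
    have h6 : (q : ℝ) * (B ^ (1 - 2 * η) + m) ≤ q * P.card := by
      nlinarith
    exact le_of_mul_le_mul_left h6 hq0
  -- the number of elements of `U`
  have hUlow : 4 * B ^ c ≤ (U0.card : ℝ) := by
    have h1 : B ^ (c + η) / (n * q) ≤ V ^ (1 - η) := by
      have h2 : (B ^ (1 - κ - τ) / (n * q)) ^ (1 - η) ≤ V ^ (1 - η) :=
        Real.rpow_le_rpow (by positivity) hVlow (by linarith)
      refine le_trans ?_ h2
      rw [Real.div_rpow (by positivity) (by positivity), ← Real.rpow_mul hB0.le]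
      refine div_le_div₀ (by positivity) ?_ (by positivity) ?_
      · refine Real.rpow_le_rpow_of_exponent_le b7 ?_
        rw [← hec]
        have : (c + 2 * η) * η ≤ 1 * η := by
          refine mul_le_mul_of_nonneg_right ?_ hη0.le
          rw [hec]
          linarith
        nlinarith
      · calc (n * q) ^ (1 - η) ≤ (n * q) ^ (1 : ℝ) := by
              refine Real.rpow_le_rpow_of_exponent_le ?_ (by linarith)
              nlinarith
          _ = n * q := Real.rpow_one _
    have h3 : 4 * B ^ c ≤ B ^ (c + η) / (n * q) := by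
      rw [Real.rpow_add hB0, le_div_iff₀ (by positivity)]
      calc 4 * B ^ c * (n * q) = B ^ c * (4 * n * q) := by ring
        _ ≤ B ^ c * B ^ η := mul_le_mul_of_nonneg_left (by nlinarith) (by positivity)
    linarith
  -- the tuples
  have hPmem : ∀ p ∈ P, p.Prime ∧ p % q = a ∧ (p : ℝ) ≤ B / n ∧ B ^ (1 - 2 * η) < (p : ℝ) := by
    intro p hp
    rw [hP, mem_filter, hP1, mem_filter, hP0def, mem_filter, mem_Icc] at hp
    obtain ⟨⟨⟨⟨-, h1⟩, h2⟩, h3⟩, h4⟩ := hp
    exact ⟨h2, h4, (Nat.le_floor_iff (by positivity)).1 h1, h3⟩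
  have hUmem : ∀ u ∈ U, u.Prime ∧ u ≠ q ∧ (u : ℝ) ≤ V := by
    intro u hu
    rw [hU, mem_erase, hU0def, mem_filter, mem_Icc] at hu
    obtain ⟨h1, ⟨-, h2⟩, h3⟩ := hu
    exact ⟨h3, h1, (Nat.le_floor_iff hV0.le).1 h2⟩
  obtain ⟨Y, hY⟩ : ∃ Y, Y = ⌊B / n⌋₊ := ⟨_, rfl⟩
  have hPne : P.Nonempty := by
    rw [← card_pos]
    have : (0 : ℝ) < P.card := by
      have : 0 < B ^ (1 - 2 * η) := by positivity
      linarith
    exact_mod_cast this
  have hqp : ∀ p ∈ P, q < p := by
    intro p hp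
    have h1 := (hPmem p hp).2.2.2
    have h2 : (q : ℝ) < p := by linarith
    exact_mod_cast h2
  have hqa : ¬ q ∣ m * a := by
    rw [Nat.Prime.dvd_mul hq, not_or]
    constructor
    · intro h
      have := Nat.le_of_dvd hm h
      omega
    · intro h
      obtain ⟨p, hp⟩ := hPne
      have h1 := (hPmem p hp).2.1
      have h2 : q ∣ p := by
        rw [← Nat.mod_add_div p q, h1]
        exact dvd_add h (dvd_mul_right _ _)
      have h3 := (Nat.prime_dvd_prime_iff_eq hq (hPmem p hp).1).1 h2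
      have := hqp p hp
      omega
  obtain ⟨G, hG1, hG2⟩ := count_tup (k := k) (Y := Y) hm hq P U
    (fun p hp => by
      obtain ⟨h1, h2, h3, h4⟩ := hPmem p hp
      refine ⟨h1, h2, hqp p hp, ?_, fun u hu => ?_⟩
      · rw [hY]
        exact Nat.le_floor h3
      · have h5 := (hUmem u hu).2.2
        have h6 : (u : ℝ) < p := by linarith
        exact_mod_cast h6)
    (fun u hu => ⟨(hUmem u hu).1, (hUmem u hu).2.1⟩) hqa
  refine ⟨G, ?_, ?_⟩
  · intro x hx
    obtain ⟨u, hu, p, hp, hD, rfl⟩ := hG1 x hx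
    obtain ⟨u1, u2, u3⟩ := hUmem u hu
    have hu0 : (0 : ℝ) < u := by exact_mod_cast u1.pos
    have hKu : (q : ℝ) ^ k * u ≤ B / n := by
      rw [hV, le_div_iff₀ (by positivity)] at u3
      rw [le_div_iff₀ hn0]
      linarith
    have hS : (∑ j, (p j : ℝ)) ≤ m * (B / n) := by
      calc ∑ j, (p j : ℝ) ≤ ∑ _j : Fin m, B / n := sum_le_sum fun j _ => (hPmem _ (hp j)).2.2.1
        _ = m * (B / n) := by rw [sum_const, card_univ, Fintype.card_fin, nsmul_eq_mul]
    have htot : ((q ^ k * u + ∑ j, p j : ℕ) : ℝ) ≤ B := by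
      push_cast
      calc (q : ℝ) ^ k * u + ∑ j, (p j : ℝ) ≤ B / n + m * (B / n) := add_le_add hKu hS
        _ = (m + 1) / n * B := by ring
        _ ≤ 1 * B := by
            refine mul_le_mul_of_nonneg_right ?_ hB0.le
            rw [div_le_one hn0, hn]
            linarith
        _ = B := one_mul B
    refine ⟨hD.adm, hD.nv, ?_, ?_⟩
    · have h1 : (ht (tup (q ^ k) u p) : ℝ) ≤ ((q ^ k * u + ∑ j, p j : ℕ) : ℝ) := by
        exact_mod_cast ht_tup
      linarith
    · have h1 := RX_tup hD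
      have h2 : B ^ (1 - 2 * η) < (ht (tup (q ^ k) u p) : ℝ) := by
        have h3 := (hPmem _ (hp ⟨0, hm⟩)).2.2.2
        have h4 : ((p ⟨0, hm⟩ : ℕ) : ℝ) ≤ (ht (tup (q ^ k) u p) : ℝ) := by
          exact_mod_cast le_ht_tup _
        linarith
      have h3 : (B ^ (1 - 2 * η)) ^ (n - κ) ≤ (ht (tup (q ^ k) u p) : ℝ) ^ (n - κ) :=
        Real.rpow_le_rpow (by positivity) h2.le (by linarith)
      rw [← hn]
      refine lt_of_lt_of_le ?_ h3
      refine lt_of_le_of_lt h1 ?_
      rw [← Real.rpow_mul hB0.le]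
      have h4 : ∏ j, (p j : ℝ) ≤ B ^ m := by
        calc ∏ j, (p j : ℝ) ≤ ∏ _j : Fin m, B := by
              refine prod_le_prod (fun _ _ => Nat.cast_nonneg _) fun j _ => ?_
              refine (hPmem _ (hp j)).2.2.1.trans ?_
              exact div_le_self hB0.le (by linarith)
          _ = B ^ m := by rw [prod_const, card_univ, Fintype.card_fin]
      have h5 : (((q * u : ℕ) : ℝ)) ≤ q * B ^ (1 - κ - τ) := by
        push_cast
        refine mul_le_mul_of_nonneg_left ?_ hq0.le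
        rw [hV] at u3
        refine u3.trans ?_
        rw [div_le_iff₀ (by positivity)]
        have h6 : B ^ (κ + τ) ≤ n * (q : ℝ) ^ k := by
          have h7 : (q : ℝ) ^ k ≤ n * (q : ℝ) ^ k := le_mul_of_one_le_left hK0.le (by linarith)
          linarith
        calc B = B ^ (1 - κ - τ) * B ^ (κ + τ) := by
              rw [← Real.rpow_add hB0]
              have : 1 - κ - τ + (κ + τ) = 1 := by ring
              rw [this, Real.rpow_one]
          _ ≤ B ^ (1 - κ - τ) * (n * (q : ℝ) ^ k) :=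
              mul_le_mul_of_nonneg_left h6 (by positivity)
      have h8 : ((q ^ k * u + ∑ j, p j : ℕ) : ℝ) * ((q * u : ℕ) : ℝ) * ∏ j, (p j : ℝ) ≤
          B * (q * B ^ (1 - κ - τ)) * B ^ m :=
        mul_le_mul (mul_le_mul htot h5 (Nat.cast_nonneg _) hB0.le) h4
          (prod_nonneg fun _ _ => Nat.cast_nonneg _) (by positivity)
      refine lt_of_le_of_lt h8 ?_
      have h9 : B * (q * B ^ (1 - κ - τ)) * B ^ m = q * B ^ (n - κ - τ) := by
        have e1 : B ^ (n - κ - τ) = B ^ (1 : ℝ) * B ^ (1 - κ - τ) * B ^ (m : ℝ) := by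
          rw [← Real.rpow_add hB0, ← Real.rpow_add hB0]
          congr 1
          rw [hn]
          ring
        rw [e1, Real.rpow_one, Real.rpow_natCast]
        ring
      rw [h9]
      have h10 : (1 - 2 * η) * (n - κ) = (n - κ - τ) + (η + 2 * η * κ) := by
        rw [hτ]
        ring
      rw [h10, Real.rpow_add hB0]
      have h11 : (q : ℝ) < B ^ (η + 2 * η * κ) := by
        have h12 : B ^ η ≤ B ^ (η + 2 * η * κ) :=
          Real.rpow_le_rpow_of_exponent_le b7 (by nlinarith)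
        nlinarith
      rw [mul_comm]
      exact mul_lt_mul_of_pos_left h11 (by positivity)
  · -- the number
    have g1 : B ^ (1 - 2 * η) ≤ ((P.card + 1 - m : ℕ) : ℝ) := by
      have h1 : m ≤ P.card := by
        have : (m : ℝ) ≤ P.card := by
          have : 0 < B ^ (1 - 2 * η) := by positivity
          linarith
        exact_mod_cast this
      rw [Nat.cast_sub (by omega)]
      push_cast
      linarith
    have g2 : B ^ c ≤ ((U.card - (Nat.log 2 (m * Y) + m) : ℕ) : ℝ) := by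
      have h1 : (Nat.log 2 (m * Y) : ℝ) ≤ 2 * Real.log B := by
        have hmY : ((m * Y : ℕ) : ℝ) ≤ B := by
          have h2 : (Y : ℝ) ≤ B / n := by rw [hY]; exact Nat.floor_le (by positivity)
          push_cast
          calc (m : ℝ) * Y ≤ m * (B / n) := mul_le_mul_of_nonneg_left h2 (by positivity)
            _ = m / n * B := by ring
            _ ≤ 1 * B := by
                refine mul_le_mul_of_nonneg_right ?_ hB0.le
                rw [div_le_one hn0, hn]
                linarith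
            _ = B := one_mul B
        rcases Nat.eq_zero_or_pos (m * Y) with h0 | h0
        · rw [h0, Nat.log_zero_right, Nat.cast_zero]
          positivity
        · have h3 := Nat.pow_log_le_self 2 h0.ne'
          have h4 : (2 : ℝ) ^ Nat.log 2 (m * Y) ≤ ((m * Y : ℕ) : ℝ) := by exact_mod_cast h3
          have h5 := Real.log_le_log (by positivity) (h4.trans hmY)
          rw [Real.log_pow] at h5
          have h6 := Real.log_two_gt_d9
          have h7 : (0 : ℝ) ≤ (Nat.log 2 (m * Y) : ℝ) := Nat.cast_nonneg _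
          nlinarith
      have h2 : B ^ c + (Nat.log 2 (m * Y) + m) ≤ (U.card : ℝ) := by linarith
      have h3 : Nat.log 2 (m * Y) + m ≤ U.card := by
        have : ((Nat.log 2 (m * Y) + m : ℕ) : ℝ) ≤ U.card := by
          push_cast
          have : 0 < B ^ c := by positivity
          linarith
        exact_mod_cast this
      rw [Nat.cast_sub h3]
      push_cast
      linarith
    have g3 : (B ^ (1 - 2 * η)) ^ m * B ^ c ≤ (G.card : ℝ) := by
      have h1 : (((P.card + 1 - m) ^ m * (U.card - (Nat.log 2 (m * Y) + m)) : ℕ) : ℝ) ≤ G.card := by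
        exact_mod_cast hG2
      refine le_trans ?_ h1
      push_cast
      refine mul_le_mul (pow_le_pow_left₀ (by positivity) g1 m) g2 (by positivity) (by positivity)
    refine le_trans ?_ g3
    rw [← Real.rpow_natCast, ← Real.rpow_mul hB0.le, ← Real.rpow_add hB0]
    refine Real.rpow_le_rpow_of_exponent_le b7 ?_
    rw [hc, hτ]
    nlinarith

end Pool.Agent.Q38.NC
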